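import Pool.Agent.H927.MG.SGoals

/-! Project M4P1 (helper927, MP_2eb777_ag), task `cohom_iso`, by helper597. -/

set_option autoImplicit false

open AlgebraicGeometry CategoryTheory Limits Polynomial
open scoped LaurentPolynomial

namespace Pool.Agent.H597.MG927

open Pool.Agent.H927.MG
open Pool.Agent.W523

theorem cohom_iso : S_cohom_iso := by
  intro K _ G G' hG hC
  obtain ⟨e1, e2, e, a1, a2, a3, a4, -⟩ := hG
  obtain ⟨h0, B, hB⟩ := hC
  refine ⟨fun w₁ w₂ h => ?_, fun i => e (B i), fun w => ?_⟩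
  · have h1 : inc G.d1 (e1.symm w₁) = inc2 G (e2.symm w₂) := by
      apply e.injective
      rw [a3, a4, RingEquiv.apply_symm_apply, RingEquiv.apply_symm_apply, h]
    obtain ⟨r, hr⟩ := h0 _ _ h1
    refine ⟨r, ?_⟩
    rw [← a1, ← hr, RingEquiv.apply_symm_apply]
  · have hk : ∀ a : Fin 4 → K, (∃ w₁ w₂, e.symm w =
        (∑ i, inc G.d1 (sc _ (a i)) * B i) + inc G.d1 w₁ + inc2 G w₂) ↔
        ∃ w₁ w₂, w = (∑ i, inc G'.d1 (sc _ (a i)) * e (B i)) + inc G'.d1 w₁ + inc2 G' w₂ := by
      intro a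
      have hs : e (∑ i, inc G.d1 (sc _ (a i)) * B i) =
          ∑ i, inc G'.d1 (sc _ (a i)) * e (B i) := by
        rw [map_sum]
        refine Finset.sum_congr rfl fun i _ => ?_
        rw [map_mul, a3, a1]
      constructor
      · rintro ⟨w₁, w₂, h⟩
        refine ⟨e1 w₁, e2 w₂, ?_⟩
        have h2 := congrArg e h
        rw [RingEquiv.apply_symm_apply, map_add, map_add, hs, a3, a4] at h2
        exact h2
      · rintro ⟨w₁, w₂, h⟩
        refine ⟨e1.symm w₁, e2.symm w₂, ?_⟩
        apply e.injective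
        rw [RingEquiv.apply_symm_apply, map_add, map_add, hs, a3, a4,
          RingEquiv.apply_symm_apply, RingEquiv.apply_symm_apply]
        exact h
    exact (existsUnique_congr hk).1 (hB (e.symm w))

end Pool.Agent.H597.MG927
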